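import Mathlib
import Pool.Agent.R488.TM
import Pool.Agent.W24.TMR

/-!
# The refined constants for the Thue-Morse-twisted Fibonacci sequence (Q2)

`h` is the sequence of the problem (`Pool.Agent.R488.TM.h`, built from the Prouhet-Thue-Morse signs
`Pool.Agent.R488.TM.t`).  The refinement in Q2 is stated for an arbitrary family of constants `C k i`.
It is false for the lower limits of the ratios, as Q2 is posed, and it is true for the infima.
-/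

set_option autoImplicit false

namespace Pool.Agent.Results.MP_e68cb8_nt.RefinedConstants

open Pool.Agent.R488.TM Filter Set
open Pool.Agent.W24.TMR

/-- the ratio `|h n| / |h (n - 1)|` -/
noncomputable def rho (n : ℕ) : ℝ := |(h n : ℝ)| / |(h (n - 1) : ℝ)|

/-- The constants of Q2: the lower limit, as `n → ∞`, of the ratio at `2 ^ k n + i + 1`. -/
noncomputable def lowerLimit (k i : ℕ) : ℝ := liminf (fun n : ℕ => rho (2 ^ k * n + i + 1)) atTop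

/-- The infimum of the ratio at `2 ^ k n + i + 1` over all `n` with `2 ^ k n + i ≥ 4`. -/
noncomputable def infimum (k i : ℕ) : ℝ :=
  sInf {x : ℝ | ∃ n : ℕ, 4 ≤ 2 ^ k * n + i ∧ x = rho (2 ^ k * n + i + 1)}

/-- The assertion of Q2 for the constants `C k i`. -/
def Refinement (C : ℕ → ℕ → ℝ) : Prop :=
  (∀ k i : ℕ, 1 ≤ k → i < 2 ^ k → (∃ x : ℚ, (x : ℝ) = C k i) ∧
    ∀ n : ℕ, 4 ≤ 2 ^ k * n + i →
      C k i * |(h (2 ^ k * n + i) : ℝ)| ≤ |(h (2 ^ k * n + i + 1) : ℝ)|) ∧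
  (∀ k : ℕ, 1 ≤ k → C (2 * k) 0 = C (2 * k + 1) 0) ∧
  C 1 0 = 2 / 7 ∧ (C 2 0 = 2 / 3 ∧ C 3 0 = 2 / 3) ∧ (C 4 0 = 64 / 83 ∧ C 5 0 = 64 / 83) ∧
  (C 6 0 = 52071130 / 67519091 ∧ C 7 0 = 52071130 / 67519091)

lemma abs_t (n : ℕ) : |(t n : ℝ)| = 1 := by
  rcases t_cases n with h | h <;> rw [h] <;> simp

lemma Yr (m : ℕ) : (0 : ℝ) < Y m := by exact_mod_cast Ypos m
lemma Xr (m : ℕ) (hm : 1 ≤ m) : (0 : ℝ) < X m := by exact_mod_cast Xpos m hm

lemma abs0 (m : ℕ) : |(h (4 * m) : ℝ)| = X m := by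
  rw [(h_values m).1]
  have : (0 : ℝ) ≤ X m := by exact_mod_cast Xnn m
  push_cast
  rw [abs_neg, abs_of_nonneg this]

lemma abs1 (m : ℕ) : |(h (4 * m + 1) : ℝ)| = Y m := by
  rw [(h_values m).2.1]
  push_cast
  rw [abs_mul, abs_t, one_mul, abs_of_pos (Yr m)]

lemma abs2 (m : ℕ) : |(h (4 * m + 2) : ℝ)| = Y (m + 1) := by
  rw [(h_values m).2.2.1]
  push_cast
  rw [abs_neg, abs_of_pos (Yr (m + 1))]

lemma abs3 (m : ℕ) : |(h (4 * m + 3) : ℝ)| = X m := by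
  rw [(h_values m).2.2.2]
  have : (0 : ℝ) ≤ X m := by exact_mod_cast Xnn m
  push_cast
  rw [abs_neg, abs_mul, abs_t, one_mul, abs_of_nonneg this]

lemma rho1 (m : ℕ) : rho (4 * m + 1) = ((1 / q m : ℚ) : ℝ) := by
  unfold rho
  rw [show 4 * m + 1 - 1 = 4 * m by omega, abs1, abs0]
  unfold q
  push_cast
  rw [one_div_div]

lemma rho2 (m : ℕ) : rho (4 * m + 2) = ((1 + q m : ℚ) : ℝ) := by
  unfold rho
  rw [show 4 * m + 2 - 1 = 4 * m + 1 by omega, abs1, abs2, Y_succ]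
  unfold q
  have := (Yr m).ne'
  push_cast
  field_simp
  ring

lemma rho3 (m : ℕ) : rho (4 * m + 3) = ((q m / (1 + q m) : ℚ) : ℝ) := by
  unfold rho
  rw [show 4 * m + 3 - 1 = 4 * m + 2 by omega, abs3, abs2, Y_succ]
  unfold q
  have h1 := Yr m
  have h2 : (0 : ℝ) ≤ X m := by exact_mod_cast Xnn m
  have h3 : (X m : ℝ) + Y m ≠ 0 := by positivity
  have h4 : (1 : ℝ) + X m / Y m ≠ 0 := by positivity
  push_cast
  field_simp
  ring

lemma rho4 (m : ℕ) (hm : 1 ≤ m) : rho (4 * (m + 1)) = ((p m : ℚ) : ℝ) := by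
  unfold rho
  rw [show 4 * (m + 1) - 1 = 4 * m + 3 by omega, abs3, abs0, ← p_eq m hm]
  push_cast
  rfl

lemma min_ge_two (k i : ℕ) (hk : 2 ≤ k) (hi : i < 2 ^ k) :
    ∃ n0 : ℕ, 4 ≤ 2 ^ k * n0 + i ∧ (∃ x : ℚ, (x : ℝ) = rho (2 ^ k * n0 + i + 1)) ∧
      ∀ n : ℕ, 4 ≤ 2 ^ k * n + i → rho (2 ^ k * n0 + i + 1) ≤ rho (2 ^ k * n + i + 1) := by
  obtain ⟨l, rfl⟩ : ∃ l, k = l + 2 := ⟨k - 2, by omega⟩
  have e : ∀ n : ℕ, 2 ^ (l + 2) * n = 4 * (2 ^ l * n) := fun n => by ring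
  have hi' : i < 4 * 2 ^ l := by
    have : 2 ^ (l + 2) = 4 * 2 ^ l := by ring
    omega
  have hdm := Nat.div_add_mod (i + 1) 4
  have hmod : (i + 1) % 4 < 4 := Nat.mod_lt _ (by norm_num)
  have hcase : (i + 1) % 4 = 0 ∨ (i + 1) % 4 = 1 ∨ (i + 1) % 4 = 2 ∨ (i + 1) % 4 = 3 := by omega
  rcases hcase with h0 | h0 | h0 | h0
  · obtain ⟨j, hj⟩ : ∃ j, (i + 1) / 4 = j + 1 := ⟨(i + 1) / 4 - 1, by omega⟩
    have hi2 : i = 4 * j + 3 := by omega
    have hj2 : j < 2 ^ l := by omega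
    obtain ⟨r, hr, hr2⟩ := class_p l j hj2
    have e2 : ∀ n : ℕ, 2 ^ (l + 2) * n + i + 1 = 4 * ((2 ^ l * n + j) + 1) := by
      intro n; rw [e, hi2]; ring
    refine ⟨r, by rw [e]; omega, ⟨p (2 ^ l * r + j), by rw [e2, rho4 _ hr]⟩, fun n hn => ?_⟩
    have hn' : 1 ≤ 2 ^ l * n + j := by rw [e] at hn; omega
    rw [e2, e2, rho4 _ hr, rho4 _ hn']
    exact_mod_cast hr2 n hn'
  · have hj2 : (i + 1) / 4 < 2 ^ l := by omega
    obtain ⟨⟨r, hr, hr2⟩, -⟩ := class_ext l ((i + 1) / 4) hj2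
    have e2 : ∀ n : ℕ, 2 ^ (l + 2) * n + i + 1 = 4 * (2 ^ l * n + (i + 1) / 4) + 1 := by
      intro n; rw [e]; omega
    refine ⟨r, by rw [e]; omega, ⟨_, by rw [e2, rho1]⟩, fun n hn => ?_⟩
    have hn' : 1 ≤ 2 ^ l * n + (i + 1) / 4 := by rw [e] at hn; omega
    rw [e2, e2, rho1, rho1]
    exact_mod_cast one_div_le_one_div_of_le (q_pos _ hn') (hr2 n hn')
  · have hj2 : (i + 1) / 4 < 2 ^ l := by omega
    obtain ⟨-, ⟨r, hr, hr2⟩⟩ := class_ext l ((i + 1) / 4) hj2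
    have e2 : ∀ n : ℕ, 2 ^ (l + 2) * n + i + 1 = 4 * (2 ^ l * n + (i + 1) / 4) + 2 := by
      intro n; rw [e]; omega
    refine ⟨r, by rw [e]; omega, ⟨_, by rw [e2, rho2]⟩, fun n hn => ?_⟩
    have hn' : 1 ≤ 2 ^ l * n + (i + 1) / 4 := by rw [e] at hn; omega
    rw [e2, e2, rho2, rho2]
    have := hr2 n hn'
    exact_mod_cast add_le_add_right this 1
  · have hj2 : (i + 1) / 4 < 2 ^ l := by omega
    obtain ⟨-, ⟨r, hr, hr2⟩⟩ := class_ext l ((i + 1) / 4) hj2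
    have e2 : ∀ n : ℕ, 2 ^ (l + 2) * n + i + 1 = 4 * (2 ^ l * n + (i + 1) / 4) + 3 := by
      intro n; rw [e]; omega
    refine ⟨r, by rw [e]; omega, ⟨_, by rw [e2, rho3]⟩, fun n hn => ?_⟩
    have hn' : 1 ≤ 2 ^ l * n + (i + 1) / 4 := by rw [e] at hn; omega
    rw [e2, e2, rho3, rho3]
    have h1 := hr2 n hn'
    have h2 := q_nn (2 ^ l * r + (i + 1) / 4)
    have h3 : q (2 ^ l * r + (i + 1) / 4) / (1 + q (2 ^ l * r + (i + 1) / 4)) ≤
        q (2 ^ l * n + (i + 1) / 4) / (1 + q (2 ^ l * n + (i + 1) / 4)) := by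
      rw [div_le_div_iff₀ (by linarith) (by linarith)]
      nlinarith
    exact_mod_cast h3

lemma min_exists (k i : ℕ) (hk : 1 ≤ k) (hi : i < 2 ^ k) :
    ∃ n0 : ℕ, 4 ≤ 2 ^ k * n0 + i ∧ (∃ x : ℚ, (x : ℝ) = rho (2 ^ k * n0 + i + 1)) ∧
      ∀ n : ℕ, 4 ≤ 2 ^ k * n + i → rho (2 ^ k * n0 + i + 1) ≤ rho (2 ^ k * n + i + 1) := by
  rcases Nat.lt_or_ge k 2 with h | h
  · have hk1 : k = 1 := by omega
    subst hk1
    have hi' : i < 2 := by simpa using hi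
    obtain ⟨a, ha, hax, ha2⟩ := min_ge_two 2 i le_rfl (by omega)
    obtain ⟨b, hb, hbx, hb2⟩ := min_ge_two 2 (i + 2) le_rfl (by omega)
    have ea : 2 ^ 2 * a + i + 1 = 2 ^ 1 * (2 * a) + i + 1 := by ring
    have eb : 2 ^ 2 * b + (i + 2) + 1 = 2 ^ 1 * (2 * b + 1) + i + 1 := by ring
    have key : ∀ n : ℕ, 4 ≤ 2 ^ 1 * n + i →
        min (rho (2 ^ 1 * (2 * a) + i + 1)) (rho (2 ^ 1 * (2 * b + 1) + i + 1)) ≤
          rho (2 ^ 1 * n + i + 1) := by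
      intro n hn
      rcases Nat.even_or_odd' n with ⟨c, rfl | rfl⟩
      · have e1 : 2 ^ 1 * (2 * c) + i + 1 = 2 ^ 2 * c + i + 1 := by ring
        rw [e1, ← ea]
        exact (min_le_left _ _).trans (ha2 c (by omega))
      · have e1 : 2 ^ 1 * (2 * c + 1) + i + 1 = 2 ^ 2 * c + (i + 2) + 1 := by ring
        rw [e1, ← eb]
        exact (min_le_right _ _).trans (hb2 c (by omega))
    rcases le_total (rho (2 ^ 1 * (2 * a) + i + 1)) (rho (2 ^ 1 * (2 * b + 1) + i + 1)) with h1 | h1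
    · rw [min_eq_left h1] at key
      exact ⟨2 * a, by omega, by rw [← ea]; exact hax, key⟩
    · rw [min_eq_right h1] at key
      exact ⟨2 * b + 1, by omega, by rw [← eb]; exact hbx, key⟩
  · exact min_ge_two k i h hi

lemma least (k i n0 : ℕ) (h0 : 4 ≤ 2 ^ k * n0 + i)
    (h1 : ∀ n : ℕ, 4 ≤ 2 ^ k * n + i → rho (2 ^ k * n0 + i + 1) ≤ rho (2 ^ k * n + i + 1)) :
    infimum k i = rho (2 ^ k * n0 + i + 1) := by
  apply IsLeast.csInf_eq
  refine ⟨⟨n0, h0, rfl⟩, ?_⟩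
  rintro x ⟨n, hn, rfl⟩
  exact h1 n hn

lemma h_pos (n : ℕ) (hn : 4 ≤ n) : 0 < |(h n : ℝ)| := by
  obtain ⟨m, r, hr, rfl⟩ : ∃ m r, r < 4 ∧ n = 4 * m + r :=
    ⟨n / 4, n % 4, Nat.mod_lt _ (by norm_num), (Nat.div_add_mod n 4).symm⟩
  have hm : 1 ≤ m := by omega
  have hr' : r = 0 ∨ r = 1 ∨ r = 2 ∨ r = 3 := by omega
  rcases hr' with rfl | rfl | rfl | rfl
  · rw [Nat.add_zero, abs0]; exact Xr m hm
  · rw [abs1]; exact Yr m
  · rw [abs2]; exact Yr (m + 1)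
  · rw [abs3]; exact Xr m hm

/-- the infimum at `i = 0` for `k ≥ 2` -/
lemma inf_even {l : ℕ} (hl : Even l) : infimum (l + 2) 0 = ((1 / q (2 ^ l * 2) : ℚ) : ℝ) := by
  have e : ∀ n : ℕ, 2 ^ (l + 2) * n + 0 + 1 = 4 * (2 ^ l * n) + 1 := fun n => by ring
  have hp : 0 < 2 ^ l := by positivity
  have h4 : (2 : ℕ) ^ (l + 2) = 4 * 2 ^ l := by ring
  rw [least (l + 2) 0 2 (by omega), e, rho1]
  intro n hn
  rw [e, e, rho1, rho1]
  have hn1 : 1 ≤ 2 ^ l * n := by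
    have : 2 ^ (l + 2) * n = 4 * (2 ^ l * n) := by ring
    omega
  exact_mod_cast one_div_le_one_div_of_le (q_pos _ hn1) (upper_even hl n)

lemma inf_odd {l : ℕ} (hl : Odd l) : infimum (l + 2) 0 = ((1 / q (2 ^ l * 1) : ℚ) : ℝ) := by
  have e : ∀ n : ℕ, 2 ^ (l + 2) * n + 0 + 1 = 4 * (2 ^ l * n) + 1 := fun n => by ring
  have hp : 0 < 2 ^ l := by positivity
  have h4 : (2 : ℕ) ^ (l + 2) = 4 * 2 ^ l := by ring
  rw [least (l + 2) 0 1 (by omega), e, rho1]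
  intro n hn
  rw [e, e, rho1, rho1]
  have hn1 : 1 ≤ 2 ^ l * n := by
    have : 2 ^ (l + 2) * n = 4 * (2 ^ l * n) := by ring
    omega
  exact_mod_cast one_div_le_one_div_of_le (q_pos _ hn1) (upper_odd hl n)

lemma inf_pair (k : ℕ) (hk : 1 ≤ k) : infimum (2 * k) 0 = infimum (2 * k + 1) 0 := by
  obtain ⟨a, rfl⟩ : ∃ a, k = a + 1 := ⟨k - 1, by omega⟩
  have h1 := inf_even (l := 2 * a) (even_two_mul a)
  have h2 := inf_odd (l := 2 * a + 1) ⟨a, rfl⟩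
  rw [show 2 * (a + 1) = 2 * a + 2 by ring, h1, show 2 * a + 2 + 1 = 2 * a + 1 + 2 by ring, h2]
  rw [show 2 ^ (2 * a + 1) * 1 = 2 ^ (2 * a) * 2 by ring]

lemma q_top (l : ℕ) : q (2 ^ l * 1) = F l (-1) 0 := by
  have := q_F l 0
  rw [sg_zero, Nat.mul_zero, q_zero] at this
  exact this

lemma inf_odd' (l : ℕ) (hl : Odd l) : infimum (l + 2) 0 = ((1 / F l (-1) 0 : ℚ) : ℝ) := by
  rw [inf_odd hl, q_top]

lemma F1 : F 1 (-1) 0 = 3 / 2 := by decide +kernel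
lemma F3 : F 3 (-1) 0 = 83 / 64 := by decide +kernel
lemma F5 : F 5 (-1) 0 = 67519091 / 52071130 := by decide +kernel

lemma odd_bound (m : ℕ) (hm : 1 ≤ m) : (2 / 7 : ℝ) ≤ rho (4 * m + 1) ∧ (2 / 7 : ℝ) ≤ rho (4 * m + 3) := by
  rw [rho1, rho3]
  have h1 := q_ge m hm
  have h2 := q_le m
  constructor
  · have : (2 / 7 : ℚ) ≤ 1 / q m := by
      rw [le_div_iff₀ (by linarith)]; linarith
    have h3 : ((2 / 7 : ℚ) : ℝ) ≤ ((1 / q m : ℚ) : ℝ) := by exact_mod_cast this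
    push_cast at h3 ⊢
    exact h3
  · have : (2 / 7 : ℚ) ≤ q m / (1 + q m) := by
      rw [le_div_iff₀ (by linarith)]; linarith
    have h3 : ((2 / 7 : ℚ) : ℝ) ≤ ((q m / (1 + q m) : ℚ) : ℝ) := by exact_mod_cast this
    push_cast at h3 ⊢
    exact h3

lemma rho_15 : rho 15 = 2 / 7 := by
  rw [show 15 = 4 * 3 + 3 by norm_num, rho3, q_three]
  norm_num

lemma odd_cases (n : ℕ) : (∃ m, 2 ^ 1 * n + 0 + 1 = 4 * m + 1 ∧ n = 2 * m) ∨
    (∃ m, 2 ^ 1 * n + 0 + 1 = 4 * m + 3 ∧ n = 2 * m + 1) := by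
  rcases Nat.even_or_odd' n with ⟨c, rfl | rfl⟩
  · left; exact ⟨c, by ring, rfl⟩
  · right; exact ⟨c, by ring, rfl⟩

lemma inf_one : infimum 1 0 = 2 / 7 := by
  rw [least 1 0 7 (by norm_num)]
  · rw [show 2 ^ 1 * 7 + 0 + 1 = 15 by norm_num, rho_15]
  · intro n hn
    rw [show 2 ^ 1 * 7 + 0 + 1 = 15 by norm_num, rho_15]
    rcases odd_cases n with ⟨m, e, hm⟩ | ⟨m, e, hm⟩
    · rw [e]; exact (odd_bound m (by omega)).1
    · rw [e]; exact (odd_bound m (by omega)).2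

lemma rho_odd_large (n : ℕ) (hn : 9 ≤ n) :
    (12 / 41 : ℝ) ≤ rho (2 ^ 1 * n + 0 + 1) ∧ rho (2 ^ 1 * n + 0 + 1) ≤ 3 := by
  have hpos : ∀ m, 4 ≤ m → 12 / 29 ≤ q m := q_ge'
  rcases odd_cases n with ⟨m, e, hm⟩ | ⟨m, e, hm⟩
  · have h1 := hpos m (by omega)
    have h2 := q_le m
    rw [e, rho1]
    constructor
    · have : (12 / 41 : ℚ) ≤ 1 / q m := by
        rw [le_div_iff₀ (by linarith)]; linarith
      have h3 : ((12 / 41 : ℚ) : ℝ) ≤ ((1 / q m : ℚ) : ℝ) := by exact_mod_cast this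
      push_cast at h3 ⊢
      exact h3
    · have : 1 / q m ≤ (3 : ℚ) := by
        rw [div_le_iff₀ (by linarith)]; linarith
      have h3 : ((1 / q m : ℚ) : ℝ) ≤ ((3 : ℚ) : ℝ) := by exact_mod_cast this
      push_cast at h3 ⊢
      exact h3
  · have h1 := hpos m (by omega)
    have h2 := q_le m
    rw [e, rho3]
    constructor
    · have : (12 / 41 : ℚ) ≤ q m / (1 + q m) := by
        rw [le_div_iff₀ (by linarith)]; linarith
      have h3 : ((12 / 41 : ℚ) : ℝ) ≤ ((q m / (1 + q m) : ℚ) : ℝ) := by exact_mod_cast this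
      push_cast at h3 ⊢
      exact h3
    · have : q m / (1 + q m) ≤ (3 : ℚ) := by
        rw [div_le_iff₀ (by linarith)]; linarith
      have h3 : ((q m / (1 + q m) : ℚ) : ℝ) ≤ ((3 : ℚ) : ℝ) := by exact_mod_cast this
      push_cast at h3 ⊢
      exact h3

lemma lower_one : (12 / 41 : ℝ) ≤ lowerLimit 1 0 := by
  unfold lowerLimit
  apply le_liminf_of_le
  · apply Filter.IsCoboundedUnder.of_frequently_le (a := (3 : ℝ))
    apply Filter.Eventually.frequently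
    filter_upwards [eventually_ge_atTop 9] with n hn
    exact (rho_odd_large n hn).2
  · filter_upwards [eventually_ge_atTop 9] with n hn
    exact (rho_odd_large n hn).1

/-- **The refined constants (Q2).**  For the lower limits, as posed, the refinement is false: the lower
limit for `k = 1`, `i = 0` is at least `12 / 41`, which is larger than `2 / 7 = |h 15| / |h 14|`.  For the
infima the refinement is true, and every infimum is attained. -/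
theorem result :
    ¬ Refinement lowerLimit ∧
    (12 / 41 ≤ lowerLimit 1 0 ∧ rho 15 = 2 / 7 ∧ rho 15 < lowerLimit 1 0) ∧
    Refinement infimum ∧
    ∀ k i : ℕ, 1 ≤ k → i < 2 ^ k → ∃ n : ℕ, 4 ≤ 2 ^ k * n + i ∧
      infimum k i = rho (2 ^ k * n + i + 1) := by
  have hlow := lower_one
  have hatt : ∀ k i : ℕ, 1 ≤ k → i < 2 ^ k → ∃ n : ℕ, 4 ≤ 2 ^ k * n + i ∧
      infimum k i = rho (2 ^ k * n + i + 1) := by
    intro k i hk hi
    obtain ⟨n0, h1, -, h3⟩ := min_exists k i hk hi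
    exact ⟨n0, h1, least k i n0 h1 h3⟩
  have v1 : infimum 3 0 = 2 / 3 := by
    rw [inf_odd' 1 (by decide), F1]; norm_num
  have v3 : infimum 5 0 = 64 / 83 := by
    rw [inf_odd' 3 (by decide), F3]; norm_num
  have v5 : infimum 7 0 = 52071130 / 67519091 := by
    rw [inf_odd' 5 (by decide), F5]; norm_num
  refine ⟨?_, ⟨hlow, rho_15, ?_⟩, ⟨?_, inf_pair, inf_one, ⟨?_, v1⟩, ⟨?_, v3⟩, ⟨?_, v5⟩⟩, hatt⟩
  · rintro ⟨-, -, h1, -⟩
    rw [h1] at hlow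
    norm_num at hlow
  · rw [rho_15]
    linarith
  · intro k i hk hi
    obtain ⟨n0, h1, hx, h3⟩ := min_exists k i hk hi
    have e := least k i n0 h1 h3
    rw [e]
    refine ⟨hx, fun n hn => ?_⟩
    have h4 := h3 n hn
    have h5 := h_pos (2 ^ k * n + i) hn
    have h6 : rho (2 ^ k * n + i + 1) * |(h (2 ^ k * n + i) : ℝ)| = |(h (2 ^ k * n + i + 1) : ℝ)| := by
      unfold rho
      rw [show 2 ^ k * n + i + 1 - 1 = 2 ^ k * n + i by omega]
      exact div_mul_cancel₀ _ h5.ne'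
    rw [← h6]
    exact mul_le_mul_of_nonneg_right h4 h5.le
  · have := inf_pair 1 le_rfl
    rw [show 2 * 1 + 1 = 3 by norm_num, v1] at this
    exact this
  · have := inf_pair 2 (by norm_num)
    rw [show 2 * 2 + 1 = 5 by norm_num, v3] at this
    exact this
  · have := inf_pair 3 (by norm_num)
    rw [show 2 * 3 + 1 = 7 by norm_num, v5] at this
    exact this

end Pool.Agent.Results.MP_e68cb8_nt.RefinedConstants
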